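import Pool.Agent.H979.DE.Stm

/-!
DE-MB: no pair of exits is used infinitely often with probability close to one.
-/

set_option autoImplicit false

open MeasureTheory Finset Filter Pool.Agent.H41.Derrw Pool.Agent.H979.DE
open scoped ENNReal Topology

namespace Pool.Agent.H276

namespace MB

variable {V : Type} [DecidableEq V]

theorem cross_congr {w w' : ℕ → V} {n : ℕ} (h : ∀ k ≤ n, w k = w' k) (x y : V) :
    cross w n x y = cross w' n x y := by
  unfold cross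
  refine Finset.sum_congr rfl fun k hk => ?_
  have hk' := Finset.mem_range.1 hk
  rw [h k hk'.le, h (k + 1) hk']

theorem Reg_congr {w w' : ℕ → V} {n : ℕ} (h : ∀ k ≤ n + 1, w k = w' k) : Reg w n ↔ Reg w' n := by
  unfold Reg
  rw [h n (Nat.le_succ n), h (n + 1) le_rfl,
    cross_congr (fun k hk => h k (hk.trans (Nat.le_succ n)))]

theorem cnt_congr {w w' : ℕ → V} {n k : ℕ} (h : ∀ j ≤ k, w j = w' j) (x y : V) :
    cnt w n k x y = cnt w' n k x y := by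
  classical
  unfold cnt
  refine congrArg Finset.card (Finset.filter_congr fun j hj => ?_)
  have hj' := (Finset.mem_Ico.1 hj).2
  rw [h j hj'.le, h (j + 1) hj']
  have e : (∀ i, n ≤ i → i < j → Reg w i) ↔ (∀ i, n ≤ i → i < j → Reg w' i) :=
    forall₃_congr fun i _ hij => Reg_congr fun k hk => h k (by omega)
  rw [e]

theorem cnt_mono (w : ℕ → V) (n : ℕ) (x y : V) : Monotone fun k => cnt w n k x y := by
  classical
  intro k k' h
  unfold cnt
  exact Finset.card_le_card (Finset.filter_subset_filter _ (Finset.Ico_subset_Ico_right h))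

theorem cnt_atTop {w : ℕ → V} {n : ℕ} {x y : V} (hreg : ∀ k, n ≤ k → Reg w k)
    (hf : ∃ᶠ k in atTop, w k = x ∧ w (k + 1) = y) :
    Tendsto (fun k => cnt w n k x y) atTop atTop := by
  classical
  refine tendsto_atTop_atTop_of_monotone (cnt_mono w n x y) fun M => ?_
  induction M with
  | zero => exact ⟨0, Nat.zero_le _⟩
  | succ M ih =>
    obtain ⟨k, hk⟩ := ih
    obtain ⟨j, hj, hjx, hjy⟩ := frequently_atTop.1 hf (max k n)
    refine ⟨j + 1, ?_⟩
    have h1 : cnt w n k x y ≤ cnt w n j x y := cnt_mono w n x y ((le_max_left _ _).trans hj)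
    have h2 : cnt w n j x y < cnt w n (j + 1) x y := by
      unfold cnt
      refine Finset.card_lt_card ?_
      rw [Finset.ssubset_iff_of_subset (Finset.filter_subset_filter _
        (Finset.Ico_subset_Ico_right (Nat.le_succ j)))]
      refine ⟨j, ?_, ?_⟩
      · rw [Finset.mem_filter, Finset.mem_Ico]
        exact ⟨⟨(le_max_right _ _).trans hj, Nat.lt_succ_self j⟩, fun i hi _ => hreg i hi, hjx, hjy⟩
      · rw [Finset.mem_filter, Finset.mem_Ico]
        intro h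
        exact lt_irrefl _ h.1.2
    omega

section meas

variable [Countable V] [MeasurableSpace V] [DiscreteMeasurableSpace V]

omit [DecidableEq V] in
theorem meas_fin {β : Type} [MeasurableSpace β] {m : ℕ} {f : (ℕ → V) → β}
    (h : ∀ w w', (∀ k ≤ m, w k = w' k) → f w = f w') : Measurable f := by
  let g : (Fin (m + 1) → V) → β := fun u => f fun k => u ⟨min k m, by omega⟩
  have hg : Measurable g := measurable_of_countable g
  have hf : f = g ∘ fun (w : ℕ → V) (i : Fin (m + 1)) => w i := by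
    funext w
    refine h _ _ fun k hk => ?_
    simp [Nat.min_eq_left hk]
  rw [hf]
  exact hg.comp (measurable_pi_lambda _ fun i => measurable_pi_apply _)

theorem meas_set {m : ℕ} {p : (ℕ → V) → Prop}
    (h : ∀ w w', (∀ k ≤ m, w k = w' k) → (p w ↔ p w')) : MeasurableSet {w | p w} :=
  measurableSet_setOfPred.2 (meas_fin fun w w' hw => propext (h w w' hw))

theorem meas_cyl (x₀ : ℕ → V) (n : ℕ) : MeasurableSet (cyl x₀ n) := by
  unfold cyl
  refine meas_set (m := n) fun w w' h => ?_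
  exact forall₂_congr fun k hk => by rw [h k hk]

theorem meas_freq (x y : V) :
    MeasurableSet {w : ℕ → V | ∃ᶠ k in atTop, w k = x ∧ w (k + 1) = y} := by
  have e : {w : ℕ → V | ∃ᶠ k in atTop, w k = x ∧ w (k + 1) = y} =
      ⋂ N : ℕ, ⋃ k : ℕ, {w : ℕ → V | N ≤ k ∧ w k = x ∧ w (k + 1) = y} := by
    ext w
    simp only [Set.mem_ofPred_eq, Set.mem_iInter, Set.mem_iUnion, frequently_atTop]
  rw [e]
  refine MeasurableSet.iInter fun N => MeasurableSet.iUnion fun k => ?_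
  refine meas_set (m := k + 1) fun w w' h => ?_
  rw [h k (Nat.le_succ k), h (k + 1) le_rfl]

theorem meas_ev (n : ℕ) (x y z : V) :
    MeasurableSet {w : ℕ → V | (∀ k, n ≤ k → Reg w k) ∧
      (∃ᶠ k in atTop, w k = x ∧ w (k + 1) = y) ∧
      (∃ᶠ k in atTop, w k = x ∧ w (k + 1) = z)} := by
  refine MeasurableSet.inter ?_ ((meas_freq x y).inter (meas_freq x z))
  have e : {w : ℕ → V | ∀ k, n ≤ k → Reg w k} = ⋂ k : ℕ, {w : ℕ → V | n ≤ k → Reg w k} := by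
    ext w
    simp only [Set.mem_ofPred_eq, Set.mem_iInter]
  show MeasurableSet {w : ℕ → V | ∀ k, n ≤ k → Reg w k}
  rw [e]
  refine MeasurableSet.iInter fun k => ?_
  exact meas_set (m := k + 1) fun w w' h => imp_congr_right fun _ => Reg_congr h

end meas

/-! ### tails -/

theorem tl_anti (hTL : S_TL) {s : ℝ} (hs : 1 < s) {a : ℕ} (ha : 1 ≤ a) :
    Antitone fun j => tl s (a + j) := by
  refine antitone_nat_of_succ_le fun j => ?_
  have h := (hTL s hs).1 (a + j) (by omega)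
  have h2 : 0 ≤ ((a + j : ℕ) : ℝ) ^ (-s) := Real.rpow_nonneg (Nat.cast_nonneg _) _
  show tl s (a + (j + 1)) ≤ tl s (a + j)
  rw [h, ← add_assoc]
  linarith

theorem tl_bd (hTL : S_TL) {s : ℝ} (hs : 1 < s) : ∃ B : ℝ, 0 ≤ B ∧ ∀ m, |tl s m| ≤ B := by
  refine ⟨|tl s 0| + tl s 1, ?_, fun m => ?_⟩
  · have := (hTL s hs).2.1 1 le_rfl
    positivity
  · have h1 := (hTL s hs).2.1 1 le_rfl
    rcases Nat.eq_zero_or_pos m with h | h
    · rw [h]
      linarith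
    · have h2 := (hTL s hs).2.1 m h
      rw [abs_of_pos h2]
      have h3 := tl_anti hTL hs le_rfl (Nat.zero_le (m - 1))
      simp only at h3
      have e : 1 + (m - 1) = m := by omega
      rw [e] at h3
      have := abs_nonneg (tl s 0)
      linarith

/-- the limit of the tail -/
noncomputable def LL (s : ℝ) (a n : ℕ) (x y : V) (w : ℕ → V) : ℝ :=
  ⨅ k, tl s (a + cnt w n k x y)

theorem LL_tendsto (hTL : S_TL) {s : ℝ} (hs : 1 < s) {a : ℕ} (ha : 1 ≤ a) (n : ℕ) (x y : V)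
    (w : ℕ → V) : Tendsto (fun k => tl s (a + cnt w n k x y)) atTop (𝓝 (LL s a n x y w)) := by
  refine tendsto_atTop_ciInf ?_ ?_
  · exact (tl_anti hTL hs ha).comp_monotone (cnt_mono w n x y)
  · refine ⟨0, ?_⟩
    rintro _ ⟨k, rfl⟩
    exact ((hTL s hs).2.1 _ (by omega)).le

theorem LL_zero (hTL : S_TL) {s : ℝ} (hs : 1 < s) {a : ℕ} (ha : 1 ≤ a) {n : ℕ} {x y : V}
    {w : ℕ → V} (h : Tendsto (fun k => cnt w n k x y) atTop atTop) : LL s a n x y w = 0 := by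
  refine tendsto_nhds_unique (LL_tendsto hTL hs ha n x y w) ?_
  exact (hTL s hs).2.2.comp (tendsto_atTop_mono (fun k => Nat.le_add_left _ a) h)

theorem LL_meas [Countable V] [MeasurableSpace V] [DiscreteMeasurableSpace V]
    (hTL : S_TL) {s : ℝ} (hs : 1 < s) {a : ℕ} (ha : 1 ≤ a) (n : ℕ) (x y : V) :
    Measurable (LL s a n x y) := by
  refine measurable_of_tendsto_metrizable (f := fun k w => tl s (a + cnt w n k x y))
    (fun k => ?_) (tendsto_pi_nhds.2 fun w => LL_tendsto hTL hs ha n x y w)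
  refine meas_fin (m := k) fun w w' h => ?_
  rw [cnt_congr h]

end MB

open MB

theorem de_mb (hSUP : S_SUP) (hALG : S_ALG) (hPZ : S_PZ) (hTL : S_TL) : S_MB := by
  intro V _ _ _ _ G _ γ v P hG hP hγ x y z x₀ n hxy hxz hyz hcy hcz
  have : IsProbabilityMeasure P := hP.1
  obtain ⟨a, ha⟩ : ∃ a : ℕ, cross x₀ n x y = a := ⟨_, (Int.toNat_of_nonneg hcy.le).symm⟩
  obtain ⟨b, hb⟩ : ∃ b : ℕ, cross x₀ n x z = b := ⟨_, (Int.toNat_of_nonneg hcz.le).symm⟩
  have ha1 : 1 ≤ a := by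
    rw [ha] at hcy
    exact_mod_cast hcy
  have hb1 : 1 ≤ b := by
    rw [hb] at hcz
    exact_mod_cast hcz
  have hγ2 : 1 < 2 * γ := by linarith
  obtain ⟨B1, hB1, hB1'⟩ := tl_bd hTL hγ
  obtain ⟨B2, hB2, hB2'⟩ := tl_bd hTL hγ2
  obtain ⟨μ, hμ⟩ : ∃ μ : ℝ, μ = tl γ a - tl γ b := ⟨_, rfl⟩
  let Yf : ℕ → ℕ → ℝ := fun α β => tl γ α - tl γ β - μ
  let Rf : ℕ → ℕ → ℝ := fun α β => tl (2 * γ) α + tl (2 * γ) β
  have hYb : ∀ α β, |Yf α β| ≤ 2 * B1 + |μ| := by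
    intro α β
    have h1 := abs_sub (tl γ α - tl γ β) μ
    have h2 := abs_sub (tl γ α) (tl γ β)
    have h3 := hB1' α
    have h4 := hB1' β
    show |tl γ α - tl γ β - μ| ≤ _
    linarith
  have hRb : ∀ α β, |Rf α β| ≤ 2 * B2 := by
    intro α β
    have h2 := abs_add_le (tl (2 * γ) α) (tl (2 * γ) β)
    have h3 := hB2' α
    have h4 := hB2' β
    show |tl (2 * γ) α + tl (2 * γ) β| ≤ _
    linarith
  set C1 := 2 * B1 + |μ| with hC1
  set C2 := 2 * B2 with hC2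
  have hC1' : 0 ≤ C1 := by positivity
  have hC2' : 0 ≤ C2 := by positivity
  let N1 : ℕ → (ℕ → V) → ℕ := fun k w => a + cnt w n k x y
  let N2 : ℕ → (ℕ → V) → ℕ := fun k w => b + cnt w n k x z
  let ν := P.restrict (cyl x₀ n)
  have hν : ν.real Set.univ = P.real (cyl x₀ n) := by
    simp [ν]
  -- functions of the counts are bounded and measurable
  have hmeas : ∀ (Ψ : ℕ → ℕ → ℝ) (k : ℕ), Measurable fun w => Ψ (N1 k w) (N2 k w) := by
    intro Ψ k
    refine meas_fin (m := k) fun w w' h => ?_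
    show Ψ (a + cnt w n k x y) (b + cnt w n k x z) = Ψ (a + cnt w' n k x y) (b + cnt w' n k x z)
    rw [cnt_congr h, cnt_congr h]
  have hint : ∀ (Ψ : ℕ → ℕ → ℝ) (C : ℝ), (∀ α β, |Ψ α β| ≤ C) → ∀ k : ℕ,
      Integrable (fun w => Ψ (N1 k w) (N2 k w)) ν := by
    intro Ψ C hC k
    refine Integrable.of_bound (hmeas Ψ k).aestronglyMeasurable C ?_
    exact Eventually.of_forall fun w => hC _ _
  have hS : ∀ (Ψ : ℕ → ℕ → ℝ) (C : ℝ), (∀ α β, |Ψ α β| ≤ C) →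
      (∀ α β : ℕ, 1 ≤ α → 1 ≤ β → (α : ℝ) ^ γ * (Ψ (α + 1) β - Ψ α β) +
        (β : ℝ) ^ γ * (Ψ α (β + 1) - Ψ α β) ≤ 0) →
      ∀ k, n ≤ k → ∫ w, Ψ (N1 k w) (N2 k w) ∂ν ≤ Ψ a b * P.real (cyl x₀ n) := by
    intro Ψ C hC h k hk
    exact hSUP V G γ v P hG hP x y z x₀ n a b hxy hxz hyz ha hb ha1 hb1 Ψ ⟨C, hC⟩ h k hk
  have hSeq : ∀ (Ψ : ℕ → ℕ → ℝ) (C : ℝ), (∀ α β, |Ψ α β| ≤ C) →
      (∀ α β : ℕ, 1 ≤ α → 1 ≤ β → (α : ℝ) ^ γ * (Ψ (α + 1) β - Ψ α β) +
        (β : ℝ) ^ γ * (Ψ α (β + 1) - Ψ α β) = 0) →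
      ∀ k, n ≤ k → ∫ w, Ψ (N1 k w) (N2 k w) ∂ν = Ψ a b * P.real (cyl x₀ n) := by
    intro Ψ C hC h k hk
    refine le_antisymm (hS Ψ C hC (fun α β h1 h2 => (h α β h1 h2).le) k hk) ?_
    have h3 := hS (fun α β => -Ψ α β) C (fun α β => by rw [abs_neg]; exact hC α β)
      (fun α β h1 h2 => by
        have := h α β h1 h2
        nlinarith) k hk
    rw [integral_neg] at h3
    linarith
  have hALG' := fun α β h1 h2 => hALG γ μ hγ α β h1 h2
  have hab : Yf a b = 0 := by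
    show tl γ a - tl γ b - μ = 0
    rw [hμ]
    ring
  have e1 : ∀ k, n ≤ k → ∫ w, Yf (N1 k w) (N2 k w) ∂ν = 0 := by
    intro k hk
    rw [hSeq Yf C1 hYb (fun α β h1 h2 => (hALG' α β h1 h2).1) k hk, hab, zero_mul]
  have hb2 : ∀ α β, |(fun α β => Yf α β ^ 2 + Rf α β) α β| ≤ C1 ^ 2 + C2 := by
    intro α β
    have h1 : Yf α β ^ 2 ≤ C1 ^ 2 := sq_le_sq' (by linarith [(abs_le.1 (hYb α β)).1])
      (abs_le.1 (hYb α β)).2
    have h2 := abs_le.1 (hRb α β)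
    show |Yf α β ^ 2 + Rf α β| ≤ _
    rw [abs_le]
    constructor <;> nlinarith [sq_nonneg (Yf α β), h2.1, h2.2, sq_nonneg C1]
  have e2 : ∀ k, n ≤ k → ∫ w, (Yf (N1 k w) (N2 k w) ^ 2 + Rf (N1 k w) (N2 k w)) ∂ν =
      (tl (2 * γ) a + tl (2 * γ) b) * ν.real Set.univ := by
    intro k hk
    have h := hSeq (fun α β => Yf α β ^ 2 + Rf α β) (C1 ^ 2 + C2) hb2
      (fun α β h1 h2 => (hALG' α β h1 h2).2.1) k hk
    simp only [hab] at h
    rw [hν]
    rw [h]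
    ring
  have hb3 : ∀ α β, |(fun α β => Yf α β ^ 4 + 8 * Yf α β ^ 2 * Rf α β + 19 * Rf α β ^ 2) α β| ≤
      C1 ^ 4 + 8 * C1 ^ 2 * C2 + 19 * C2 ^ 2 := by
    intro α β
    have h1 : Yf α β ^ 2 ≤ C1 ^ 2 := sq_le_sq' (by linarith [(abs_le.1 (hYb α β)).1])
      (abs_le.1 (hYb α β)).2
    have h2 : |Rf α β| ≤ C2 := hRb α β
    have h3 : Rf α β ^ 2 ≤ C2 ^ 2 := sq_le_sq' (by linarith [(abs_le.1 h2).1]) (abs_le.1 h2).2
    have h4 : Yf α β ^ 4 ≤ C1 ^ 4 := by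
      have : Yf α β ^ 4 = (Yf α β ^ 2) ^ 2 := by ring
      rw [this]
      have h5 : C1 ^ 4 = (C1 ^ 2) ^ 2 := by ring
      rw [h5]
      exact pow_le_pow_left₀ (sq_nonneg _) h1 2
    have h6 : |8 * Yf α β ^ 2 * Rf α β| ≤ 8 * C1 ^ 2 * C2 := by
      rw [abs_mul, abs_of_nonneg (by positivity : (0 : ℝ) ≤ 8 * Yf α β ^ 2)]
      exact mul_le_mul (by linarith) h2 (abs_nonneg _) (by positivity)
    show |Yf α β ^ 4 + 8 * Yf α β ^ 2 * Rf α β + 19 * Rf α β ^ 2| ≤ _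
    have h7 := abs_le.1 h6
    have h8 : 0 ≤ Yf α β ^ 4 := by positivity
    have h9 : 0 ≤ Rf α β ^ 2 := sq_nonneg _
    have h10 : 0 ≤ C1 ^ 4 := by positivity
    have h11 : 0 ≤ C2 ^ 2 := sq_nonneg _
    rw [abs_le]
    constructor
    · linarith [h7.1]
    · linarith [h7.2]
  have hRn : ∀ α β : ℕ, 1 ≤ α → 1 ≤ β → 0 ≤ Rf α β := by
    intro α β h1 h2
    have h3 := (hTL (2 * γ) hγ2).2.1 α h1
    have h4 := (hTL (2 * γ) hγ2).2.1 β h2
    show 0 ≤ tl (2 * γ) α + tl (2 * γ) β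
    linarith
  have hN1 : ∀ k w, 1 ≤ N1 k w := fun k w => ha1.trans (Nat.le_add_right _ _)
  have hN2 : ∀ k w, 1 ≤ N2 k w := fun k w => hb1.trans (Nat.le_add_right _ _)
  have hY4 : ∀ α β, |(fun α β => Yf α β ^ 4) α β| ≤ C1 ^ 4 := by
    intro α β
    show |Yf α β ^ 4| ≤ C1 ^ 4
    rw [abs_pow]
    exact pow_le_pow_left₀ (abs_nonneg _) (hYb α β) 4
  have e3 : ∀ k, n ≤ k → ∫ w, Yf (N1 k w) (N2 k w) ^ 4 ∂ν ≤
      19 * (tl (2 * γ) a + tl (2 * γ) b) ^ 2 * ν.real Set.univ := by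
    intro k hk
    have h := hS (fun α β => Yf α β ^ 4 + 8 * Yf α β ^ 2 * Rf α β + 19 * Rf α β ^ 2) _ hb3
      (fun α β h1 h2 => (hALG' α β h1 h2).2.2) k hk
    simp only [hab] at h
    rw [hν]
    refine le_trans ?_ (h.trans (le_of_eq ?_))
    · refine integral_mono (hint (fun α β => Yf α β ^ 4) _ hY4 k)
        (hint (fun α β => Yf α β ^ 4 + 8 * Yf α β ^ 2 * Rf α β + 19 * Rf α β ^ 2) _ hb3 k)
        fun w => ?_
      have h1 := hRn _ _ (hN1 k w) (hN2 k w)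
      have h2 : 0 ≤ 8 * Yf (N1 k w) (N2 k w) ^ 2 * Rf (N1 k w) (N2 k w) := by positivity
      have h3 : 0 ≤ 19 * Rf (N1 k w) (N2 k w) ^ 2 := by positivity
      show Yf (N1 k w) (N2 k w) ^ 4 ≤ Yf (N1 k w) (N2 k w) ^ 4 +
        8 * Yf (N1 k w) (N2 k w) ^ 2 * Rf (N1 k w) (N2 k w) + 19 * Rf (N1 k w) (N2 k w) ^ 2
      linarith
    · show ((0 : ℝ) ^ 4 + 8 * (0 : ℝ) ^ 2 * Rf a b + 19 * Rf a b ^ 2) * _ =
        19 * (tl (2 * γ) a + tl (2 * γ) b) ^ 2 * _
      have : Rf a b = tl (2 * γ) a + tl (2 * γ) b := rfl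
      rw [this]
      ring
  -- limits
  let Y : (ℕ → V) → ℝ := fun w => LL γ a n x y w - LL γ b n x z w - μ
  let R : (ℕ → V) → ℝ := fun w => LL (2 * γ) a n x y w + LL (2 * γ) b n x z w
  have hYlim : ∀ w, Tendsto (fun k => Yf (N1 k w) (N2 k w)) atTop (𝓝 (Y w)) := fun w =>
    ((LL_tendsto hTL hγ ha1 n x y w).sub (LL_tendsto hTL hγ hb1 n x z w)).sub_const μ
  have hRlim : ∀ w, Tendsto (fun k => Rf (N1 k w) (N2 k w)) atTop (𝓝 (R w)) := fun w =>
    (LL_tendsto hTL hγ2 ha1 n x y w).add (LL_tendsto hTL hγ2 hb1 n x z w)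
  have hYm : Measurable Y :=
    ((LL_meas hTL hγ ha1 n x y).sub (LL_meas hTL hγ hb1 n x z)).sub_const μ
  have hRm : Measurable R := (LL_meas hTL hγ2 ha1 n x y).add (LL_meas hTL hγ2 hb1 n x z)
  have hdom : ∀ (Ψ : ℕ → ℕ → ℝ) (C : ℝ) (f : (ℕ → V) → ℝ), (∀ α β, |Ψ α β| ≤ C) →
      (∀ w, Tendsto (fun k => Ψ (N1 k w) (N2 k w)) atTop (𝓝 (f w))) →
      Tendsto (fun k => ∫ w, Ψ (N1 k w) (N2 k w) ∂ν) atTop (𝓝 (∫ w, f w ∂ν)) := by
    intro Ψ C f hC hlim
    refine tendsto_integral_of_dominated_convergence (fun _ => C)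
      (fun k => (hmeas Ψ k).aestronglyMeasurable) (integrable_const C)
      (fun k => Eventually.of_forall fun w => hC _ _) (Eventually.of_forall hlim)
  have i1 : ∫ w, Y w ∂ν = 0 := by
    refine tendsto_nhds_unique (hdom Yf C1 Y hYb hYlim) ?_
    refine tendsto_const_nhds.congr' ?_
    filter_upwards [eventually_ge_atTop n] with k hk
    exact (e1 k hk).symm
  have i2 : ∫ w, (Y w ^ 2 + R w) ∂ν = (tl (2 * γ) a + tl (2 * γ) b) * ν.real Set.univ := by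
    refine tendsto_nhds_unique (hdom (fun α β => Yf α β ^ 2 + Rf α β) _
      (fun w => Y w ^ 2 + R w) hb2 fun w => ((hYlim w).pow 2).add (hRlim w)) ?_
    refine tendsto_const_nhds.congr' ?_
    filter_upwards [eventually_ge_atTop n] with k hk
    exact (e2 k hk).symm
  have i3 : ∫ w, Y w ^ 4 ∂ν ≤ 19 * (tl (2 * γ) a + tl (2 * γ) b) ^ 2 * ν.real Set.univ := by
    refine le_of_tendsto (hdom (fun α β => Yf α β ^ 4) _ (fun w => Y w ^ 4) hY4
      fun w => (hYlim w).pow 4) ?_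
    filter_upwards [eventually_ge_atTop n] with k hk
    exact e3 k hk
  have hr : 0 < tl (2 * γ) a + tl (2 * γ) b := by
    have h3 := (hTL (2 * γ) hγ2).2.1 a ha1
    have h4 := (hTL (2 * γ) hγ2).2.1 b hb1
    linarith
  have key := hPZ (ℕ → V) ν {w : ℕ → V | (∀ k, n ≤ k → Reg w k) ∧
      (∃ᶠ k in atTop, w k = x ∧ w (k + 1) = y) ∧
      (∃ᶠ k in atTop, w k = x ∧ w (k + 1) = z)} Y R (tl (2 * γ) a + tl (2 * γ) b) (-μ) C1
      (meas_ev n x y z) hYm hRm hr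
      (fun w => le_of_tendsto' (hYlim w).abs fun k => hYb _ _)
      (fun w => ⟨ge_of_tendsto' (hRlim w) fun k => hRn _ _ (hN1 k w) (hN2 k w),
        le_of_tendsto' (hRlim w) fun k => add_le_add
          (tl_anti hTL hγ2 ha1 (Nat.zero_le (cnt w n k x y)))
          (tl_anti hTL hγ2 hb1 (Nat.zero_le (cnt w n k x z)))⟩)
      i1 i2 i3 (fun w hw => by
        have h1 := cnt_atTop hw.1 hw.2.1
        have h2 := cnt_atTop hw.1 hw.2.2
        constructor
        · show LL γ a n x y w - LL γ b n x z w - μ = -μ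
          rw [LL_zero hTL hγ ha1 h1, LL_zero hTL hγ hb1 h2]
          ring
        · show LL (2 * γ) a n x y w + LL (2 * γ) b n x z w = 0
          rw [LL_zero hTL hγ2 ha1 h1, LL_zero hTL hγ2 hb1 h2]
          ring)
  rw [hν] at key
  have e4 : ν.real {w : ℕ → V | (∀ k, n ≤ k → Reg w k) ∧
      (∃ᶠ k in atTop, w k = x ∧ w (k + 1) = y) ∧
      (∃ᶠ k in atTop, w k = x ∧ w (k + 1) = z)} =
      P.real (cyl x₀ n ∩ {w | (∀ k, n ≤ k → Reg w k) ∧
      (∃ᶠ k in atTop, w k = x ∧ w (k + 1) = y) ∧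
      (∃ᶠ k in atTop, w k = x ∧ w (k + 1) = z)}) := by
    show (P.restrict (cyl x₀ n)).real _ = _
    rw [measureReal_restrict_apply (meas_ev n x y z), Set.inter_comm]
  rw [e4] at key
  exact key

end Pool.Agent.H276
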