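import Pool.Agent.H193.UV.Stm

/-!
# Project UV (helper193), piece B (helper276): the augmentation is determined by the operator

Adapted from `Pool/Agent/H787/OZ_R.lean`.
-/

set_option autoImplicit false

namespace Pool.Agent.H276.UVB

open Finsupp
open Pool.Agent.H193.UV

section
variable {k : Type} [Field k] {Ω : Type}

/-- the sum of the coordinates -/
noncomputable def sm : (ℕ × Ω →₀ k) →ₗ[k] k := Finsupp.linearCombination k (fun _ => (1 : k))

lemma sm_single (i : ℕ × Ω) : sm (single i (1 : k)) = 1 := by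
  unfold sm
  rw [Finsupp.linearCombination_single, smul_eq_mul, mul_one]

lemma wX_succ (w : ℕ → OpI k Ω) (n : ℕ) (v : Ω) :
    wX w (single (n + 1, v) 1) = Jn n (w n (single v 1)) := by
  unfold wX
  rw [Finsupp.linearCombination_single, one_smul]

lemma sY_single (n : ℕ) (v : Ω) : sY k Ω (single (n, v) 1) = single (n + 1, v) 1 := by
  unfold sY
  rw [Finsupp.lmapDomain_apply, Finsupp.mapDomain_single]

lemma Jn_single (n : ℕ) (v : Ω) : (Jn n : (Ω →₀ k) →ₗ[k] (ℕ × Ω →₀ k)) (single v 1) =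
    single (n, v) 1 := by
  unfold Jn
  rw [Finsupp.lmapDomain_apply, Finsupp.mapDomain_single]

/-- admissible indices -/
def Ad (N m : ℕ) : Prop := N ≤ m ∧ ∀ j : ℕ, 4 ^ j + N < m ∨ m + N < 4 ^ j

/-- eventual behaviour -/
def EvN (r : BigI k (ℕ × Ω)) (N : ℕ) : Prop := ∀ m, Ad N m → ∀ v : Ω,
  sm (r.1 (single (m, v) 1)) = r.2 ∧
  r.1 (single (m, v) 1) ∈ Finsupp.supported k k {i : ℕ × Ω | m ≤ i.1 + N ∧ i.1 ≤ m + N}

lemma ev_ext {r : BigI k (ℕ × Ω)} {N : ℕ} (h : EvN r N) (S : Set (ℕ × Ω))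
    (hS : ∀ i ∈ S, Ad N i.1) (T : Set (ℕ × Ω))
    (hT : ∀ i ∈ S, ∀ l : ℕ × Ω, i.1 ≤ l.1 + N → l.1 ≤ i.1 + N → l ∈ T) (v : ℕ × Ω →₀ k)
    (hv : v ∈ Finsupp.supported k k S) :
    sm (r.1 v) = r.2 * sm v ∧ r.1 v ∈ Finsupp.supported k k T := by
  rw [Finsupp.supported_eq_span_single] at hv
  induction hv using Submodule.span_induction with
  | mem x hx =>
    obtain ⟨⟨m, z⟩, hm, rfl⟩ := hx
    obtain ⟨h1, h2⟩ := h m (hS (m, z) hm) z
    refine ⟨?_, Finsupp.supported_mono ?_ h2⟩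
    · show sm (r.1 (single (m, z) 1)) = r.2 * sm (single (m, z) (1 : k))
      rw [h1, sm_single, mul_one]
    · intro l hl
      exact hT (m, z) hm l hl.1 hl.2
  | zero => simp
  | add x y _ _ hx hy =>
    refine ⟨?_, ?_⟩
    · rw [map_add, map_add, map_add, hx.1, hy.1]; ring
    · rw [map_add]; exact add_mem hx.2 hy.2
  | smul c x _ hx =>
    refine ⟨?_, ?_⟩
    · rw [map_smul, map_smul, map_smul, hx.1, smul_eq_mul, smul_eq_mul]; ring
    · rw [map_smul]; exact Submodule.smul_mem _ _ hx.2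

lemma ev_mono {r : BigI k (ℕ × Ω)} {N M : ℕ} (h : EvN r N) (hNM : N ≤ M) : EvN r M := by
  intro m hm v
  obtain ⟨h1, h2⟩ := h m ⟨by have := hm.1; omega, fun j => by
    rcases hm.2 j with h | h
    · left; omega
    · right; omega⟩ v
  refine ⟨h1, Finsupp.supported_mono ?_ h2⟩
  rintro i ⟨hi1, hi2⟩
  exact ⟨by omega, by omega⟩

lemma ev_SS {w : ℕ → OpI k Ω} (hw1 : ∀ n, (∀ j, n ≠ 4 ^ j) → w n = 1)
    (r : BigI k (ℕ × Ω)) (hr : r ∈ SS w) : ∃ N, EvN r N := by
  have hr' : r ∈ Algebra.adjoin k {(wX w, (1 : k)), (sY k Ω, (1 : k))} := hr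
  clear hr
  induction hr' using Algebra.adjoin_induction with
  | mem x hx =>
    rcases hx with rfl | hx
    · refine ⟨1, ?_⟩
      intro m hm v
      obtain ⟨m, rfl⟩ : ∃ m', m = m' + 1 := ⟨m - 1, by have := hm.1; omega⟩
      have h1 : w m = 1 := by
        refine hw1 m fun j hj => ?_
        rcases hm.2 j with h | h
        · omega
        · omega
      show sm (wX w (single (m + 1, v) 1)) = 1 ∧ wX w (single (m + 1, v) 1) ∈ _
      have h2 : (w m) (single v 1) = single v 1 := by rw [h1]; rfl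
      rw [wX_succ, h2, Jn_single]
      refine ⟨sm_single _, Finsupp.single_mem_supported k 1 ?_⟩
      exact ⟨le_rfl, by show m ≤ m + 1 + 1; omega⟩
    · rw [Set.mem_singleton_iff] at hx
      subst hx
      refine ⟨1, ?_⟩
      intro m _ v
      show sm (sY k Ω (single (m, v) 1)) = 1 ∧ sY k Ω (single (m, v) 1) ∈ _
      rw [sY_single]
      refine ⟨sm_single _, Finsupp.single_mem_supported k 1 ?_⟩
      exact ⟨by show m ≤ m + 1 + 1; omega, le_rfl⟩
  | algebraMap c =>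
    refine ⟨0, fun m _ v => ?_⟩
    have h1 : (algebraMap k (BigI k (ℕ × Ω)) c).1 (single (m, v) 1) =
      c • (single (m, v) 1 : ℕ × Ω →₀ k) := rfl
    have h2 : (algebraMap k (BigI k (ℕ × Ω)) c).2 = c := rfl
    rw [h1, h2]
    refine ⟨by rw [map_smul, smul_eq_mul, sm_single, mul_one], Submodule.smul_mem _ _
      (Finsupp.single_mem_supported k 1 ⟨le_rfl, le_rfl⟩)⟩
  | add x y _ _ hx hy =>
    obtain ⟨N, hN⟩ := hx
    obtain ⟨M, hM⟩ := hy
    refine ⟨max N M, fun m hm v => ?_⟩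
    obtain ⟨h1, h2⟩ := ev_mono hN (le_max_left N M) m hm v
    obtain ⟨h3, h4⟩ := ev_mono hM (le_max_right N M) m hm v
    have e1 : (x + y).1 (single (m, v) 1) = x.1 (single (m, v) 1) + y.1 (single (m, v) 1) := rfl
    have e2 : (x + y).2 = x.2 + y.2 := rfl
    rw [e1, e2]
    exact ⟨by rw [map_add, h1, h3], add_mem h2 h4⟩
  | mul x y _ _ hx hy =>
    obtain ⟨N, hN⟩ := hx
    obtain ⟨M, hM⟩ := hy
    refine ⟨N + M, fun m hm v => ?_⟩
    obtain ⟨h3, h4⟩ := ev_mono hM (le_refl M) m ⟨by have := hm.1; omega, fun j => by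
      rcases hm.2 j with h | h
      · left; omega
      · right; omega⟩ v
    have h5 := ev_ext hN {i : ℕ × Ω | m ≤ i.1 + M ∧ i.1 ≤ m + M} (by
      rintro i ⟨hi1, hi2⟩
      have := hm.1
      refine ⟨by omega, fun j => ?_⟩
      rcases hm.2 j with h | h
      · left; omega
      · right; omega) {i : ℕ × Ω | m ≤ i.1 + (N + M) ∧ i.1 ≤ m + (N + M)} (by
      rintro i ⟨hi1, hi2⟩ l hl1 hl2
      exact ⟨by omega, by omega⟩) (y.1 (single (m, v) 1)) h4
    have e1 : (x * y).1 (single (m, v) 1) = x.1 (y.1 (single (m, v) 1)) := rfl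
    have e2 : (x * y).2 = x.2 * y.2 := rfl
    rw [e1, e2]
    exact ⟨by rw [h5.1, h3], h5.2⟩

end

lemma ad_ex (N : ℕ) : Ad N (2 * 4 ^ N) := by
  have h1 : N < 4 ^ N := Nat.lt_pow_self (by norm_num)
  refine ⟨by omega, fun j => ?_⟩
  rcases Nat.lt_or_ge N j with h | h
  · right
    have h2 : 4 ^ (N + 1) ≤ 4 ^ j := Nat.pow_le_pow_right (by norm_num) h
    rw [pow_succ] at h2
    omega
  · left
    have h2 : 4 ^ j ≤ 4 ^ N := Nat.pow_le_pow_right (by norm_num) h
    omega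

theorem s_B : S_B := by
  intro k _ Ω hΩ w hw r hr h
  obtain ⟨v⟩ := hΩ
  obtain ⟨N, hN⟩ := ev_SS hw r hr
  have h1 := (hN _ (ad_ex N) v).1
  rw [h, LinearMap.zero_apply, map_zero] at h1
  exact h1.symm

end Pool.Agent.H276.UVB

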